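import Pool.Agent.V7Lead.GH.Defs
import Pool.Agent.Q210.UM8.BLS

set_option autoImplicit false

/-!
Project GH, job D2 (helper93): the second moment of zeta prime at all zeros within `1/8` of the critical
line, against the continuous moment. Adapted from `Q210/UM8/BLS.lean` (helper97).
-/

namespace Pool.Agent.V7H93.GH

open Filter Topology MeasureTheory Complex
open Pool.Agent.Q97.UM Pool.Agent.Q210.UM8 Pool.Agent.V7Lead.GH

noncomputable section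

/-- trivial bound for a Dirichlet polynomial -/
theorem trivc (M : ℕ) (c b : ℕ → ℂ) (l : ℝ) (hl : 0 ≤ l)
    (h : ∀ n ∈ Finset.Icc 1 M, ‖b n‖ ≤ l * ‖c n‖)
    (s : ℂ) (hs : 3 / 8 ≤ s.re) : ‖∑ n ∈ Finset.Icc 1 M, b n * (n : ℂ) ^ (-s)‖ ^ 2 ≤
      l ^ 2 * ((M : ℝ) ^ 3 * N2 M c) := by
  have h1 : ‖∑ n ∈ Finset.Icc 1 M, b n * (n : ℂ) ^ (-s)‖ ≤
      (l * M) * ∑ n ∈ Finset.Icc 1 M, 1 * (‖c n‖ / Real.sqrt n) := by
    rw [Finset.mul_sum]
    refine (norm_sum_le _ _).trans (Finset.sum_le_sum fun n hn => ?_)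
    have hn1 : 0 < n := (Finset.mem_Icc.1 hn).1
    have hn1' : (1 : ℝ) ≤ n := by exact_mod_cast hn1
    have hnM : (n : ℝ) ≤ M := by exact_mod_cast (Finset.mem_Icc.1 hn).2
    rw [norm_mul, Complex.norm_natCast_cpow_of_pos hn1]
    have h3 : (n : ℝ) ^ (-s).re ≤ M * (Real.sqrt n)⁻¹ := by
      rw [Complex.neg_re]
      calc (n : ℝ) ^ (-s.re) ≤ (n : ℝ) ^ (1 + -(1 / 2 : ℝ)) :=
            Real.rpow_le_rpow_of_exponent_le hn1' (by linarith)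
        _ = n * (Real.sqrt n)⁻¹ := by
            rw [Real.rpow_add (by linarith), Real.rpow_one, Real.rpow_neg (by linarith),
              ← Real.sqrt_eq_rpow]
        _ ≤ M * (Real.sqrt n)⁻¹ := mul_le_mul_of_nonneg_right hnM (by positivity)
    calc ‖b n‖ * (n : ℝ) ^ (-s).re ≤ (l * ‖c n‖) * (M * (Real.sqrt n)⁻¹) :=
          mul_le_mul (h n hn) h3 (by positivity) (by positivity)
      _ = _ := by
          rw [one_mul, div_eq_mul_inv]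
          ring
  have h3 := Finset.sum_mul_sq_le_sq_mul_sq (Finset.Icc 1 M) (fun _ => (1 : ℝ))
    (fun n => ‖c n‖ / Real.sqrt n)
  have h4 : ∑ n ∈ Finset.Icc 1 M, (‖c n‖ / Real.sqrt n) ^ 2 = N2 M c := by
    unfold N2
    refine Finset.sum_congr rfl fun n _ => ?_
    rw [div_pow, Real.sq_sqrt (Nat.cast_nonneg _)]
  rw [h4] at h3
  simp only [one_pow, Finset.sum_const, Nat.card_Icc, Nat.add_sub_cancel, nsmul_eq_mul,
    mul_one] at h3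
  calc ‖∑ n ∈ Finset.Icc 1 M, b n * (n : ℂ) ^ (-s)‖ ^ 2 ≤
        ((l * M) * ∑ n ∈ Finset.Icc 1 M, 1 * (‖c n‖ / Real.sqrt n)) ^ 2 :=
        pow_le_pow_left₀ (norm_nonneg _) h1 2
    _ = (l * M) ^ 2 * (∑ n ∈ Finset.Icc 1 M, 1 * (‖c n‖ / Real.sqrt n)) ^ 2 := by rw [mul_pow]
    _ ≤ (l * M) ^ 2 * (M * N2 M c) := mul_le_mul_of_nonneg_left h3 (by positivity)
    _ = _ := by ring

/-- the complex exponential form -/
theorem cpow_expc {n : ℕ} (hn : 1 ≤ n) (z : ℂ) : (n : ℂ) ^ (-(1 / 2 + z * I)) =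
    (((Real.sqrt n)⁻¹ : ℝ) : ℂ) * cexp (-(I * ((Real.log n : ℝ) * z))) := by
  have hn0 : (n : ℂ) ≠ 0 := by exact_mod_cast (by omega : n ≠ 0)
  have hn1 : (0 : ℝ) < n := by exact_mod_cast hn
  have h1 : (((Real.sqrt n)⁻¹ : ℝ) : ℂ) = cexp (((-(1 / 2) * Real.log n : ℝ) : ℂ)) := by
    rw [← Complex.ofReal_exp]
    congr 1
    rw [Real.sqrt_eq_rpow, ← Real.rpow_neg hn1.le, Real.rpow_def_of_pos hn1]
    congr 1
    ring
  rw [Complex.cpow_def_of_ne_zero hn0, h1, ← Complex.exp_add, ← Complex.natCast_log]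
  congr 1
  push_cast
  ring

/-- derivative of a Dirichlet polynomial -/
theorem dq_deriv (M : ℕ) (c : ℕ → ℂ) (z : ℂ) : HasDerivAt (fun v : ℂ => dq M c (1 / 2 + v * I))
    (∑ n ∈ Finset.Icc 1 M, (c n * (-(I * (Real.log n : ℝ)))) * (n : ℂ) ^ (-(1 / 2 + z * I))) z := by
  have h1 : (fun v : ℂ => dq M c (1 / 2 + v * I)) = fun v : ℂ => ∑ n ∈ Finset.Icc 1 M,
      c n * ((((Real.sqrt n)⁻¹ : ℝ) : ℂ) * cexp (-(I * ((Real.log n : ℝ) * v)))) := by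
    funext v
    unfold dq
    refine Finset.sum_congr rfl fun n hn => ?_
    rw [cpow_expc (Finset.mem_Icc.1 hn).1]
  rw [h1]
  have h2 : ∑ n ∈ Finset.Icc 1 M, (c n * (-(I * (Real.log n : ℝ)))) * (n : ℂ) ^ (-(1 / 2 + z * I)) =
      ∑ n ∈ Finset.Icc 1 M, c n * ((((Real.sqrt n)⁻¹ : ℝ) : ℂ) *
        (cexp (-(I * ((Real.log n : ℝ) * z))) * (-(I * (Real.log n : ℝ))))) := by
    refine Finset.sum_congr rfl fun n hn => ?_
    rw [cpow_expc (Finset.mem_Icc.1 hn).1]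
    ring
  rw [h2]
  apply HasDerivAt.fun_sum
  intro n _
  have h3 : HasDerivAt (fun v : ℂ => (-(I * ((Real.log n : ℝ) * v)))) (-(I * (Real.log n : ℝ))) z := by
    have h5 := (((hasDerivAt_id z).const_mul ((Real.log n : ℝ) : ℂ)).const_mul I).neg
    exact h5.congr_deriv (by simp)
  exact (h3.cexp.const_mul _).const_mul _

theorem prod_eqc (K M : ℕ) (ps : ℕ → ℝ) (c : ℕ → ℂ) (Y : ℝ)
    (hps : ∀ k ∈ Finset.Icc 1 K, ps k ≠ 0 → Real.log k ≤ Y) (z : ℂ) :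
    zt' K ps (1 / 2 + z * I) * dq M c (1 / 2 + z * I) =
      ex (((Finset.Icc 1 K).filter (fun k : ℕ => Real.log k ≤ Y)) ×ˢ Finset.Icc 1 M)
        (co ps c) fr z := by
  have h1 : zt' K ps (1 / 2 + z * I) = ∑ k ∈ (Finset.Icc 1 K).filter (fun k : ℕ => Real.log k ≤ Y),
      ((ps k : ℝ) : ℂ) * (k : ℂ) ^ (-(1 / 2 + z * I)) := by
    unfold zt'
    rw [Finset.sum_filter_of_ne]
    intro k hk hne
    apply hps k hk
    intro h0
    rw [h0] at hne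
    simp at hne
  rw [h1]
  unfold dq ex
  rw [Finset.sum_mul_sum, Finset.sum_product]
  refine Finset.sum_congr rfl fun k hk => Finset.sum_congr rfl fun n hn => ?_
  have hk1 := (Finset.mem_Icc.1 (Finset.mem_filter.1 hk).1).1
  have hn1 := (Finset.mem_Icc.1 hn).1
  rw [cpow_expc hk1, cpow_expc hn1]
  have h2 : cexp (-(I * (fr (k, n) * z))) = cexp (-(I * ((Real.log k : ℝ) * z))) *
      cexp (-(I * ((Real.log n : ℝ) * z))) := by
    rw [← Complex.exp_add]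
    congr 1
    unfold fr
    push_cast
    ring
  rw [h2]
  unfold co
  ring

/-- the derivative of an exponential sum -/
theorem ex_deriv {ι : Type} (S : Finset ι) (a : ι → ℂ) (w : ι → ℝ) (z : ℂ) :
    HasDerivAt (fun v : ℂ => ex S a w v) (ex' S a w z) z := by
  unfold ex ex'
  apply HasDerivAt.fun_sum
  intro p _
  have h3 : HasDerivAt (fun v : ℂ => (-(I * ((w p : ℝ) * v)))) (-(I * (w p : ℝ))) z := by
    have h5 := (((hasDerivAt_id z).const_mul ((w p : ℝ) : ℂ)).const_mul I).neg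
    exact h5.congr_deriv (by simp)
  refine (h3.cexp.const_mul (a p)).congr_deriv ?_
  ring

/-- the derivative in two ways -/
theorem deriv_eqc (K M : ℕ) (ps : ℕ → ℝ) (c : ℕ → ℂ) (Y : ℝ)
    (hps : ∀ k ∈ Finset.Icc 1 K, ps k ≠ 0 → Real.log k ≤ Y) (z : ℂ) :
    ex' (((Finset.Icc 1 K).filter (fun k : ℕ => Real.log k ≤ Y)) ×ˢ Finset.Icc 1 M)
        (co ps c) fr z =
      deriv (zt' K ps) (1 / 2 + z * I) * I * dq M c (1 / 2 + z * I) + zt' K ps (1 / 2 + z * I) *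
        ∑ n ∈ Finset.Icc 1 M, (c n * (-(I * (Real.log n : ℝ)))) * (n : ℂ) ^ (-(1 / 2 + z * I)) := by
  have h1 : HasDerivAt (fun v : ℂ => zt' K ps (1 / 2 + v * I) * dq M c (1 / 2 + v * I))
      (ex' (((Finset.Icc 1 K).filter (fun k : ℕ => Real.log k ≤ Y)) ×ˢ Finset.Icc 1 M)
        (co ps c) fr z) z := by
    have e1 : (fun v : ℂ => zt' K ps (1 / 2 + v * I) * dq M c (1 / 2 + v * I)) = fun v : ℂ =>
        ex (((Finset.Icc 1 K).filter (fun k : ℕ => Real.log k ≤ Y)) ×ˢ Finset.Icc 1 M)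
          (co ps c) fr v := by
      funext v
      exact prod_eqc K M ps c Y hps v
    rw [e1]
    exact ex_deriv _ _ _ z
  have h2 : HasDerivAt (fun v : ℂ => zt' K ps (1 / 2 + v * I))
      (deriv (zt' K ps) (1 / 2 + z * I) * I) z := by
    have h3 : HasDerivAt (fun v : ℂ => (1 / 2 + v * I : ℂ)) I z := by
      have h4 := ((hasDerivAt_id z).mul_const I).const_add (1 / 2 : ℂ)
      exact h4.congr_deriv (by simp)
    exact HasDerivAt.comp z ((zt'_diff K ps) (1 / 2 + z * I)).hasDerivAt h3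
  exact h1.unique (h2.mul (dq_deriv M c z))

/-- one zero -/
theorem zero_boundc (K M : ℕ) (ps : ℕ → ℝ) (c : ℕ → ℂ) (Y T L ε : ℝ) (hT : 16 ≤ T) (hL : 1 ≤ L)
    (hps : ∀ k ∈ Finset.Icc 1 K, ps k ≠ 0 → Real.log k ≤ Y)
    (hlog : ∀ n ∈ Finset.Icc 1 M, Real.log n ≤ L)
    (hz : ∀ s : ℂ, |s.re - 1 / 2| ≤ 1 / 4 → T / 4 ≤ s.im → s.im ≤ 4 * T →
      ‖riemannZeta s - zt' K ps s‖ ≤ ε)
    (s : ℂ) (hre : |s.re - 1 / 2| ≤ 1 / 8) (him : T ≤ s.im) (him2 : s.im ≤ 2 * T)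
    (h0 : riemannZeta s = 0) :
    ‖deriv riemannZeta s‖ ^ 2 * ‖dq M c s‖ ^ 2 ≤
      3 * ‖ex' (((Finset.Icc 1 K).filter (fun k : ℕ => Real.log k ≤ Y)) ×ˢ Finset.Icc 1 M)
        (co ps c) fr ((s.im : ℝ) + ((1 / 2 - s.re : ℝ) : ℂ) * I)‖ ^ 2 +
      51 * (2 * ε) ^ 2 * L ^ 2 * ((M : ℝ) ^ 3 * N2 M c) := by
  obtain ⟨z, hzd⟩ : ∃ z : ℂ, z = (s.im : ℝ) + ((1 / 2 - s.re : ℝ) : ℂ) * I := ⟨_, rfl⟩
  rw [← hzd]
  have hs : s = 1 / 2 + z * I := by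
    rw [hzd]
    apply Complex.ext
    · simp
    · simp
  have hre2 : 3 / 8 ≤ s.re := by
    have := (abs_le.1 hre).1
    linarith
  have hε : 0 ≤ ε := (norm_nonneg _).trans
    (hz s (hre.trans (by norm_num)) (by linarith) (by linarith))
  have hN : 0 ≤ (M : ℝ) ^ 3 * N2 M c := by
    unfold N2
    positivity
  -- the difference
  have hdiff : ∀ w ∈ Metric.closedBall s (1 / 8), DifferentiableAt ℂ riemannZeta w ∧
      ‖riemannZeta w - zt' K ps w‖ ≤ ε := by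
    intro w hw
    rw [Metric.mem_closedBall, dist_eq_norm] at hw
    have h1 : |w.re - 1 / 2| ≤ 1 / 4 := by
      have h2 := Complex.abs_re_le_norm (w - s)
      rw [Complex.sub_re] at h2
      have h3 : |w.re - 1 / 2| ≤ |w.re - s.re| + |s.re - 1 / 2| := abs_sub_le _ _ _
      linarith
    have h2 : |w.im - s.im| ≤ 1 / 4 := by
      have := Complex.abs_im_le_norm (w - s)
      rw [Complex.sub_im] at this
      linarith
    obtain ⟨h3, h4⟩ := abs_le.1 h2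
    refine ⟨differentiableAt_riemannZeta ?_, hz w h1 (by linarith) (by linarith)⟩
    intro h5
    rw [h5, Complex.one_im] at h3
    linarith
  have hE : ‖deriv riemannZeta s - deriv (zt' K ps) s‖ ≤ 8 * ε := by
    have h1 : DiffContOnCl ℂ (fun w => riemannZeta w - zt' K ps w) (Metric.ball s (1 / 8)) := by
      apply DifferentiableOn.diffContOnCl
      intro w hw
      have hw' := Metric.closure_ball_subset_closedBall hw
      exact ((hdiff w hw').1.sub (zt'_diff K ps w)).differentiableWithinAt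
    have h2 := Complex.norm_deriv_le_of_forall_mem_sphere_norm_le (by norm_num : (0 : ℝ) < 1 / 8) h1
      (fun w hw => (hdiff w (Metric.sphere_subset_closedBall hw)).2)
    have h3 : deriv (fun w => riemannZeta w - zt' K ps w) s =
        deriv riemannZeta s - deriv (zt' K ps) s :=
      deriv_fun_sub (hdiff s (Metric.mem_closedBall_self (by norm_num))).1 (zt'_diff K ps s)
    rw [h3] at h2
    linarith
  have hz0 : ‖zt' K ps s‖ ≤ ε := by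
    have := (hdiff s (Metric.mem_closedBall_self (by norm_num))).2
    rw [h0, zero_sub, norm_neg] at this
    exact this
  have hD := deriv_eqc K M ps c Y hps z
  obtain ⟨D, hDd⟩ : ∃ D : ℂ, D = ex' (((Finset.Icc 1 K).filter (fun k : ℕ => Real.log k ≤ Y)) ×ˢ
    Finset.Icc 1 M) (co ps c) fr z := ⟨_, rfl⟩
  rw [← hDd, ← hs] at hD
  rw [← hDd]
  obtain ⟨P, hP⟩ : ∃ P : ℂ, P = ∑ n ∈ Finset.Icc 1 M, (c n * (-(I * (Real.log n : ℝ)))) *
    (n : ℂ) ^ (-s) := ⟨_, rfl⟩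
  rw [← hP] at hD
  have hPb : ‖P‖ ^ 2 ≤ L ^ 2 * ((M : ℝ) ^ 3 * N2 M c) := by
    rw [hP]
    apply trivc M c (fun n => c n * (-(I * (Real.log n : ℝ)))) L (by linarith) _ s hre2
    intro n hn
    have hn1 : (1 : ℝ) ≤ n := by exact_mod_cast (Finset.mem_Icc.1 hn).1
    rw [norm_mul, norm_neg, norm_mul, Complex.norm_I, one_mul, Complex.norm_real, Real.norm_eq_abs,
      abs_of_nonneg (Real.log_nonneg hn1), mul_comm]
    exact mul_le_mul_of_nonneg_right (hlog n hn) (norm_nonneg _)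
  have hdb : ‖dq M c s‖ ^ 2 ≤ (M : ℝ) ^ 3 * N2 M c := by
    have h1 := trivc M c c 1 (by norm_num) (fun n _ => by rw [one_mul]) s hre2
    rw [one_pow, one_mul] at h1
    exact h1
  have h1 : deriv riemannZeta s * dq M c s * I =
      (deriv riemannZeta s - deriv (zt' K ps) s) * dq M c s * I + D - zt' K ps s * P := by
    rw [hD]
    ring
  have h2 : ‖deriv riemannZeta s‖ * ‖dq M c s‖ ≤ 8 * ε * ‖dq M c s‖ + ‖D‖ + ε * ‖P‖ := by
    have h3 : ‖deriv riemannZeta s‖ * ‖dq M c s‖ = ‖deriv riemannZeta s * dq M c s * I‖ := by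
      rw [norm_mul, norm_mul, Complex.norm_I, mul_one]
    rw [h3, h1]
    refine (norm_sub_le _ _).trans ?_
    refine add_le_add ((norm_add_le _ _).trans (add_le_add ?_ le_rfl)) ?_
    · rw [norm_mul, norm_mul, Complex.norm_I, mul_one]
      exact mul_le_mul_of_nonneg_right hE (norm_nonneg _)
    · rw [norm_mul]
      exact mul_le_mul_of_nonneg_right hz0 (norm_nonneg _)
  have h3 : (‖deriv riemannZeta s‖ * ‖dq M c s‖) ^ 2 ≤
      (8 * ε * ‖dq M c s‖ + ‖D‖ + ε * ‖P‖) ^ 2 := pow_le_pow_left₀ (by positivity) h2 2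
  have h4 : (8 * ε * ‖dq M c s‖ + ‖D‖ + ε * ‖P‖) ^ 2 ≤
      3 * ((8 * ε * ‖dq M c s‖) ^ 2 + ‖D‖ ^ 2 + (ε * ‖P‖) ^ 2) := by
    nlinarith [sq_nonneg (8 * ε * ‖dq M c s‖ - ‖D‖), sq_nonneg (‖D‖ - ε * ‖P‖),
      sq_nonneg (8 * ε * ‖dq M c s‖ - ε * ‖P‖)]
  have h5 : (8 * ε * ‖dq M c s‖) ^ 2 ≤ 64 * ε ^ 2 * L ^ 2 * ((M : ℝ) ^ 3 * N2 M c) := by
    have h6 : 1 ≤ L ^ 2 := one_le_pow₀ hL
    calc (8 * ε * ‖dq M c s‖) ^ 2 = 64 * ε ^ 2 * ‖dq M c s‖ ^ 2 := by ring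
      _ ≤ 64 * ε ^ 2 * ((M : ℝ) ^ 3 * N2 M c) := mul_le_mul_of_nonneg_left hdb (by positivity)
      _ ≤ 64 * ε ^ 2 * (L ^ 2 * ((M : ℝ) ^ 3 * N2 M c)) := by
          apply mul_le_mul_of_nonneg_left _ (by positivity)
          nlinarith
      _ = _ := by ring
  have h6 : (ε * ‖P‖) ^ 2 ≤ ε ^ 2 * L ^ 2 * ((M : ℝ) ^ 3 * N2 M c) := by
    calc (ε * ‖P‖) ^ 2 = ε ^ 2 * ‖P‖ ^ 2 := by ring
      _ ≤ ε ^ 2 * (L ^ 2 * ((M : ℝ) ^ 3 * N2 M c)) := mul_le_mul_of_nonneg_left hPb (by positivity)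
      _ = _ := by ring
  rw [← mul_pow]
  have h7 : 0 ≤ ε ^ 2 * L ^ 2 * ((M : ℝ) ^ 3 * N2 M c) := by positivity
  calc (‖deriv riemannZeta s‖ * ‖dq M c s‖) ^ 2 ≤
        3 * ((8 * ε * ‖dq M c s‖) ^ 2 + ‖D‖ ^ 2 + (ε * ‖P‖) ^ 2) := h3.trans h4
    _ ≤ _ := by linarith

/-- the kernel `(1 + |x|)^{-20}` -/
def kk (x : ℝ) : ℂ := ((1 / (1 + |x|) ^ 20 : ℝ) : ℂ)

theorem norm_kk (x : ℝ) : ‖kk x‖ = 1 / (1 + |x|) ^ 20 := by
  unfold kk
  rw [Complex.norm_real, Real.norm_eq_abs, abs_of_nonneg (by positivity)]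

theorem int_kk : Integrable kk := by
  have h := integrable_one_add_norm (E := ℝ) (μ := volume) (r := 20) (by simp)
  have h2 : Integrable (fun y : ℝ => (1 / (1 + |y|) ^ 20 : ℝ)) := by
    refine h.congr (Eventually.of_forall fun y => ?_)
    simp only [Real.norm_eq_abs]
    have h1 : (0 : ℝ) ≤ 1 + |y| := by positivity
    rw [Real.rpow_neg h1, one_div]
    congr 1
    exact_mod_cast Real.rpow_natCast (1 + |y|) 20
  exact h2.ofReal

/-- the core, for an arbitrary finite set of zeros near the critical line -/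
theorem corec {B C₂ : ℝ} (hB : 1 ≤ B)
    (hcb : ∀ (ι : Type) (S : Finset ι) (a : ι → ℂ) (fr : ι → ℝ) (L : ℝ), 0 < L →
      (∀ i ∈ S, |fr i| ≤ 2 * L) → ∀ t y : ℝ,
      ‖ex S a fr (t + y * I)‖ ^ 2 ≤
        B * Real.exp (B * (L * |y|)) * ∫ v : ℝ, L * (1 / (1 + |L * (t - v)|) ^ 20) * ‖ex S a fr v‖ ^ 2 ∧
      ‖ex' S a fr (t + y * I)‖ ^ 2 ≤
        B * L ^ 2 * Real.exp (B * (L * |y|)) *
          ∫ v : ℝ, L * (1 / (1 + |L * (t - v)|) ^ 20) * ‖ex S a fr v‖ ^ 2)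
    (hC₂ : 0 < C₂)
    (hw : ∀ (ι : Type) (Z : Finset ι) (x n : ι → ℝ) (L : ℝ), 0 < L →
      (∀ i ∈ Z, ((Z.filter (fun j => |x j - x i| ≤ 2 / L)).card : ℝ) ≤ n i) → ∀ v : ℝ,
      ∑ i ∈ Z, (n i)⁻¹ * (1 / (1 + L * |v - x i|) ^ 2) ≤ C₂)
    {ψ : ℝ → ℝ} {C₀ T : ℝ} (hψ2 : ∀ u, 5 / 4 ≤ u → ψ u = 0) (hψ3 : ∀ u, 0 ≤ ψ u ∧ ψ u ≤ 1)
    (hz : ∀ s : ℂ, |s.re - 1 / 2| ≤ 1 / 4 → T / 4 ≤ s.im → s.im ≤ 4 * T →
      ‖riemannZeta s - ∑ k ∈ Finset.Icc 1 ⌊T ^ (2 : ℝ)⌋₊,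
        ((ψ (Real.log k / Real.log T) : ℝ) : ℂ) * (k : ℂ) ^ (-s)‖ ≤ C₀ / T ^ 3)
    (hT : 16 ≤ T) (hL : 1 ≤ Real.log T) (M : ℕ) (c : ℕ → ℂ) (hM : (M : ℝ) ≤ T ^ (1 / 16 : ℝ))
    (Z : Finset ℂ) (hZ : ∀ s ∈ Z, s ∈ H370.zset riemannZeta T (2 * T) ∧ |s.re - 1 / 2| ≤ 1 / 8) :
    ∑ s ∈ Z, (n2 T s.im)⁻¹ * Real.exp (-(B * (Real.log T * |s.re - 1 / 2|))) *
        (‖deriv riemannZeta s‖ ^ 2 * ‖dq M c s‖ ^ 2) ≤
      (6 * B * 1 * C₂ + 15 * B * 1 * C₂ * (2 * C₀) ^ 2 +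
        3 * B * C₂ * 1 * C4 + 204 * (2 * C₀) ^ 2 * C₂) * Real.log T ^ 3 *
        ((∫ t in (T / 2)..(3 * T), ‖zt t‖ ^ 2 * ‖dp M c t‖ ^ 2) + N2 M c) := by
  have hT0 : 0 < T := by linarith
  have hT1 : 1 ≤ T := by linarith
  obtain ⟨L, hLd⟩ : ∃ L : ℝ, L = Real.log T := ⟨_, rfl⟩
  have hL1 : 1 ≤ L := by rw [hLd]; exact hL
  have hL0 : 0 < L := by linarith
  obtain ⟨K, hK⟩ : ∃ K : ℕ, K = ⌊T ^ (2 : ℝ)⌋₊ := ⟨_, rfl⟩
  obtain ⟨ps, hps⟩ : ∃ ps : ℕ → ℝ, ps = fun k : ℕ => ψ (Real.log k / L) := ⟨_, rfl⟩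
  have hKT : (K : ℝ) ≤ T ^ 2 := by
    rw [hK]
    refine (Nat.floor_le (by positivity)).trans (le_of_eq ?_)
    exact_mod_cast Real.rpow_natCast T 2
  have hz' : ∀ s : ℂ, |s.re - 1 / 2| ≤ 1 / 4 → T / 4 ≤ s.im → s.im ≤ 4 * T →
      ‖riemannZeta s - zt' K ps s‖ ≤ C₀ / T ^ 3 := by
    intro s h1 h2 h3
    have := hz s h1 h2 h3
    rw [← hK, ← hLd] at this
    unfold zt'
    rw [hps]
    exact this
  have hC₀ : 0 ≤ C₀ / T ^ 3 := by
    refine (norm_nonneg _).trans (hz' (1 / 2 + T * I) (by simp) ?_ ?_)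
    · simp
      linarith
    · simp
      linarith
  have hpsY : ∀ k ∈ Finset.Icc 1 K, ps k ≠ 0 → Real.log k ≤ 5 / 4 * L := by
    intro k _ hne
    by_contra hlt
    push Not at hlt
    apply hne
    rw [hps]
    exact hψ2 _ (by rw [le_div_iff₀ hL0]; exact hlt.le)
  have hM1 : (M : ℝ) ^ 3 ≤ T := by
    calc (M : ℝ) ^ 3 ≤ (T ^ (1 / 16 : ℝ)) ^ 3 := pow_le_pow_left₀ (Nat.cast_nonneg _) hM 3
      _ = T ^ (3 / 16 : ℝ) := by
          rw [← Real.rpow_natCast, ← Real.rpow_mul hT0.le]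
          norm_num
      _ ≤ T ^ (1 : ℝ) := Real.rpow_le_rpow_of_exponent_le hT1 (by norm_num)
      _ = T := Real.rpow_one T
  have hMM : (M : ℝ) ≤ (M : ℝ) ^ 3 := by
    rcases Nat.eq_zero_or_pos M with h | h
    · rw [h]
      norm_num
    · have h1 : (1 : ℝ) ≤ M := by exact_mod_cast h
      exact le_self_pow₀ h1 (by norm_num)
  have hlog : ∀ n ∈ Finset.Icc 1 M, 0 ≤ Real.log n ∧ Real.log n ≤ 1 / 16 * L := by
    intro n hn
    rw [Finset.mem_Icc] at hn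
    have h1 : (1 : ℝ) ≤ n := by exact_mod_cast hn.1
    refine ⟨Real.log_nonneg h1, ?_⟩
    have h2 : (n : ℝ) ≤ T ^ (1 / 16 : ℝ) := le_trans (by exact_mod_cast hn.2) hM
    have h3 := Real.log_le_log (by linarith) h2
    rw [Real.log_rpow hT0, ← hLd] at h3
    exact h3
  obtain ⟨S, hS⟩ : ∃ S : Finset (ℕ × ℕ), S = ((Finset.Icc 1 K).filter
    (fun k : ℕ => Real.log k ≤ 5 / 4 * L)) ×ˢ Finset.Icc 1 M := ⟨_, rfl⟩
  have hfr : ∀ p ∈ S, |fr p| ≤ 2 * L := by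
    intro p hp
    rw [hS, Finset.mem_product, Finset.mem_filter, Finset.mem_Icc] at hp
    have h1 : (1 : ℝ) ≤ p.1 := by exact_mod_cast hp.1.1.1
    have h2 := Real.log_nonneg h1
    have h3 := hlog p.2 hp.2
    unfold fr
    rw [abs_of_nonneg (by linarith)]
    linarith [hp.1.2]
  obtain ⟨g, hg⟩ : ∃ g : ℝ → ℂ, g = fun v : ℝ => ex S (co ps c) fr v := ⟨_, rfl⟩
  have hgc : Continuous g := by
    rw [hg]
    unfold ex
    fun_prop
  have hgp : ∀ v : ℝ, g v = zt' K ps (1 / 2 + v * I) * dp M c v := by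
    intro v
    have h1 := prod_eqc K M ps c _ hpsY v
    rw [← hS] at h1
    rw [hg]
    exact h1.symm
  have hN0 : 0 ≤ N2 M c := by
    unfold N2
    positivity
  have hQ0 : 0 ≤ (M : ℝ) ^ 3 * N2 M c := by positivity
  have hQT : (M : ℝ) ^ 3 * N2 M c ≤ T * N2 M c := mul_le_mul_of_nonneg_right hM1 hN0
  have hdb : ∀ v : ℝ, ‖dp M c v‖ ^ 2 ≤ (M : ℝ) ^ 3 * N2 M c := by
    intro v
    have h1 := triv M c c 1 (fun n _ => by rw [one_mul]) v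
    rw [one_pow, one_mul] at h1
    exact h1.trans (mul_le_mul_of_nonneg_right hMM hN0)
  have hzb : ∀ v : ℝ, ‖zt' K ps (1 / 2 + v * I)‖ ≤ T ^ 2 := by
    intro v
    unfold zt'
    refine (norm_sum_le _ _).trans ?_
    calc ∑ k ∈ Finset.Icc 1 K, ‖((ps k : ℝ) : ℂ) * (k : ℂ) ^ (-(1 / 2 + v * I))‖ ≤
          ∑ k ∈ Finset.Icc 1 K, (1 : ℝ) := by
          refine Finset.sum_le_sum fun k hk => ?_
          have hk1 : 0 < k := (Finset.mem_Icc.1 hk).1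
          have hk1' : (1 : ℝ) ≤ k := by exact_mod_cast hk1
          rw [norm_mul, Complex.norm_natCast_cpow_of_pos hk1, Complex.norm_real, Real.norm_eq_abs]
          have h2 : (-(1 / 2 + v * I) : ℂ).re = -(1 / 2) := by simp
          rw [h2]
          have h3 : |ps k| ≤ 1 := by
            rw [hps, abs_of_nonneg (hψ3 _).1]
            exact (hψ3 _).2
          have h4 : (k : ℝ) ^ (-(1 / 2) : ℝ) ≤ 1 :=
            Real.rpow_le_one_of_one_le_of_nonpos hk1' (by norm_num)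
          have h5 : 0 ≤ (k : ℝ) ^ (-(1 / 2) : ℝ) := by positivity
          calc |ps k| * (k : ℝ) ^ (-(1 / 2) : ℝ) ≤ 1 * 1 := mul_le_mul h3 h4 h5 (by norm_num)
            _ = 1 := one_mul 1
      _ = K := by simp
      _ ≤ T ^ 2 := hKT
  have hG : ∀ v, ‖g v‖ ^ 2 ≤ T ^ 4 * ((M : ℝ) ^ 3 * N2 M c) := by
    intro v
    rw [hgp, norm_mul, mul_pow]
    apply mul_le_mul _ (hdb v) (sq_nonneg _) (by positivity)
    calc ‖zt' K ps (1 / 2 + v * I)‖ ^ 2 ≤ (T ^ 2) ^ 2 := pow_le_pow_left₀ (norm_nonneg _) (hzb v) 2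
      _ = T ^ 4 := by ring
  have hcard : ∀ i ∈ Z, ((Z.filter (fun j : ℂ => |j.im - i.im| ≤ 2 / L)).card : ℝ) ≤ n2 T i.im := by
    intro i _
    rw [hLd]
    exact n2_ge T hT Z (fun s hs => (hZ s hs).1) i.im
  have hwZ := hw ℂ Z (fun s => s.im) (fun s => n2 T s.im) L hL0 hcard
  have hn0 : ∀ i ∈ Z, 0 ≤ (n2 T i.im)⁻¹ := by
    intro i hi
    apply inv_nonneg.2
    exact (Nat.cast_nonneg _).trans (hcard i hi)
  have hx : ∀ i ∈ Z, T ≤ i.im ∧ i.im ≤ 2 * T := fun i hi =>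
    ⟨(hZ i hi).1.2.2.1.le, (hZ i hi).1.2.2.2.1⟩
  have hsi := sum_int (k := kk) int_kk (C₃ := 1) (by norm_num) (fun x => (norm_kk x).le) Z
    (fun s => s.im) (fun s => n2 T s.im) hL1 hT0 hn0 hwZ hx hgc hG
  -- sum of the weights
  have hWb : ∑ s ∈ Z, (n2 T s.im)⁻¹ ≤ C₂ * (1 + L * T) ^ 2 := by
    have h1 := hwZ T
    have h2 : ∀ s ∈ Z, (n2 T s.im)⁻¹ ≤ (1 + L * T) ^ 2 * ((n2 T s.im)⁻¹ *
        (1 / (1 + L * |T - s.im|) ^ 2)) := by
      intro s hs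
      have h3 : |T - s.im| ≤ T := by
        rw [abs_le]
        constructor <;> linarith [(hx s hs).1, (hx s hs).2]
      have h4 : (1 + L * |T - s.im|) ^ 2 ≤ (1 + L * T) ^ 2 := by
        apply pow_le_pow_left₀ (by positivity)
        have := mul_le_mul_of_nonneg_left h3 hL0.le
        linarith
      have h5 : 1 ≤ (1 + L * T) ^ 2 * (1 / (1 + L * |T - s.im|) ^ 2) := by
        rw [mul_one_div, le_div_iff₀ (by positivity), one_mul]
        exact h4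
      calc (n2 T s.im)⁻¹ = (n2 T s.im)⁻¹ * 1 := (mul_one _).symm
        _ ≤ (n2 T s.im)⁻¹ * ((1 + L * T) ^ 2 * (1 / (1 + L * |T - s.im|) ^ 2)) :=
          mul_le_mul_of_nonneg_left h5 (hn0 s hs)
        _ = _ := by ring
    refine (Finset.sum_le_sum h2).trans ?_
    rw [← Finset.mul_sum, mul_comm]
    exact mul_le_mul_of_nonneg_right h1 (by positivity)
  have hW0 : 0 ≤ ∑ s ∈ Z, (n2 T s.im)⁻¹ := Finset.sum_nonneg hn0
  -- the integral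
  have hzc : ContinuousOn (fun v : ℝ => ‖zt v‖ ^ 2 * ‖dp M c v‖ ^ 2) (Set.Icc (T / 2) (3 * T)) := by
    have h1 : ContinuousOn (fun v : ℝ => zt v) (Set.Icc (T / 2) (3 * T)) := by
      intro v _
      apply ContinuousAt.continuousWithinAt
      unfold zt
      have h2 : (1 / 2 + v * I : ℂ) ≠ 1 := by
        intro h
        have := congrArg Complex.re h
        norm_num at this
      exact (differentiableAt_riemannZeta h2).continuousAt.comp (f := fun v : ℝ => (1 / 2 + v * I : ℂ))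
        (by fun_prop)
    have h2 : Continuous (fun v : ℝ => dp M c v) := by
      rw [continuous_iff_continuousAt]
      intro v
      exact (dp_deriv M c v).continuousAt
    exact (h1.norm.pow 2).mul (h2.norm.pow 2).continuousOn
  have hzi : IntegrableOn (fun v : ℝ => ‖zt v‖ ^ 2 * ‖dp M c v‖ ^ 2) (Set.Ioc (T / 2) (3 * T)) :=
    (hzc.integrableOn_Icc).mono_set Set.Ioc_subset_Icc_self
  have hJ : ∫ v in Set.Ioc (T / 2) (3 * T), ‖g v‖ ^ 2 ≤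
      2 * (∫ t in (T / 2)..(3 * T), ‖zt t‖ ^ 2 * ‖dp M c t‖ ^ 2) +
        5 * (2 * C₀ / T ^ 3) ^ 2 * T * ((M : ℝ) ^ 3 * N2 M c) := by
    rw [intervalIntegral.integral_of_le (by linarith)]
    have h1 : ∀ v ∈ Set.Ioc (T / 2) (3 * T), ‖g v‖ ^ 2 ≤
        2 * (‖zt v‖ ^ 2 * ‖dp M c v‖ ^ 2) + 2 * ((C₀ / T ^ 3) ^ 2 * ((M : ℝ) ^ 3 * N2 M c)) := by
      intro v hv
      have h2 : ‖riemannZeta (1 / 2 + v * I) - zt' K ps (1 / 2 + v * I)‖ ≤ C₀ / T ^ 3 := by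
        apply hz'
        · simp
        · simp
          linarith [hv.1]
        · simp
          linarith [hv.2]
      have h3 : ‖g v‖ ≤ ‖zt v‖ * ‖dp M c v‖ + C₀ / T ^ 3 * ‖dp M c v‖ := by
        rw [hgp, norm_mul, ← add_mul]
        apply mul_le_mul_of_nonneg_right _ (norm_nonneg _)
        have h4 : zt' K ps (1 / 2 + v * I) = zt v -
            (riemannZeta (1 / 2 + v * I) - zt' K ps (1 / 2 + v * I)) := by
          unfold zt
          ring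
        rw [h4]
        exact (norm_sub_le _ _).trans (add_le_add le_rfl h2)
      have h5 : ‖g v‖ ^ 2 ≤ (‖zt v‖ * ‖dp M c v‖ + C₀ / T ^ 3 * ‖dp M c v‖) ^ 2 :=
        pow_le_pow_left₀ (norm_nonneg _) h3 2
      have h6 : (‖zt v‖ * ‖dp M c v‖ + C₀ / T ^ 3 * ‖dp M c v‖) ^ 2 ≤
          2 * (‖zt v‖ * ‖dp M c v‖) ^ 2 + 2 * (C₀ / T ^ 3 * ‖dp M c v‖) ^ 2 := by
        nlinarith [sq_nonneg (‖zt v‖ * ‖dp M c v‖ - C₀ / T ^ 3 * ‖dp M c v‖)]
      have h7 : (C₀ / T ^ 3 * ‖dp M c v‖) ^ 2 ≤ (C₀ / T ^ 3) ^ 2 * ((M : ℝ) ^ 3 * N2 M c) := by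
        rw [mul_pow]
        exact mul_le_mul_of_nonneg_left (hdb v) (sq_nonneg _)
      rw [mul_pow ‖zt v‖] at h6
      linarith
    have i1 : IntegrableOn (fun v => ‖g v‖ ^ 2) (Set.Ioc (T / 2) (3 * T)) :=
      (hgc.norm.pow 2).integrableOn_Icc.mono_set Set.Ioc_subset_Icc_self
    have i2 : IntegrableOn (fun _ : ℝ => 2 * ((C₀ / T ^ 3) ^ 2 * ((M : ℝ) ^ 3 * N2 M c)))
        (Set.Ioc (T / 2) (3 * T)) := by
      exact (continuous_const).integrableOn_Icc.mono_set Set.Ioc_subset_Icc_self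
    have i3 : IntegrableOn (fun v : ℝ => 2 * (‖zt v‖ ^ 2 * ‖dp M c v‖ ^ 2) +
        2 * ((C₀ / T ^ 3) ^ 2 * ((M : ℝ) ^ 3 * N2 M c))) (Set.Ioc (T / 2) (3 * T)) :=
      Integrable.add (hzi.const_mul 2) i2
    calc ∫ v in Set.Ioc (T / 2) (3 * T), ‖g v‖ ^ 2 ≤ ∫ v in Set.Ioc (T / 2) (3 * T),
          (2 * (‖zt v‖ ^ 2 * ‖dp M c v‖ ^ 2) + 2 * ((C₀ / T ^ 3) ^ 2 * ((M : ℝ) ^ 3 * N2 M c))) :=
          setIntegral_mono_on i1 i3 measurableSet_Ioc h1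
      _ = 2 * (∫ v in Set.Ioc (T / 2) (3 * T), ‖zt v‖ ^ 2 * ‖dp M c v‖ ^ 2) +
          (5 / 2 * T) * (2 * ((C₀ / T ^ 3) ^ 2 * ((M : ℝ) ^ 3 * N2 M c))) := by
          rw [integral_add (hzi.const_mul 2) i2, integral_const_mul, setIntegral_const]
          congr 1
          rw [Measure.real, Real.volume_Ioc, ENNReal.toReal_ofReal (by linarith), smul_eq_mul]
          ring
      _ ≤ _ := by
          have h9 : (2 * C₀ / T ^ 3) ^ 2 = 4 * (C₀ / T ^ 3) ^ 2 := by ring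
          rw [h9]
          have h10 : 0 ≤ (C₀ / T ^ 3) ^ 2 * T * ((M : ℝ) ^ 3 * N2 M c) := by positivity
          nlinarith
  have hF0 : 0 ≤ ∫ t in (T / 2)..(3 * T), ‖zt t‖ ^ 2 * ‖dp M c t‖ ^ 2 := by
    apply intervalIntegral.integral_nonneg (by linarith)
    intro v _
    positivity
  refine main_bound hT hL hC₂ (by norm_num : (0 : ℝ) < 1) (by linarith : 0 ≤ B) hN0 hF0 hW0
    (by rw [← hLd]; exact hWb) hQT hJ (G := T ^ 4 * ((M : ℝ) ^ 3 * N2 M c)) ?_ ?_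
  · calc T ^ 4 * ((M : ℝ) ^ 3 * N2 M c) ≤ T ^ 4 * (T * N2 M c) :=
          mul_le_mul_of_nonneg_left hQT (by positivity)
      _ = _ := by ring
  rw [← hLd]
  have hpt : ∀ s ∈ Z, (n2 T s.im)⁻¹ * Real.exp (-(B * (L * |s.re - 1 / 2|))) *
      (‖deriv riemannZeta s‖ ^ 2 * ‖dq M c s‖ ^ 2) ≤
      3 * (B * L ^ 3 * ((n2 T s.im)⁻¹ * ∫ v : ℝ, ‖kk (L * (s.im - v))‖ * ‖g v‖ ^ 2)) +
        (n2 T s.im)⁻¹ * (51 * (2 * C₀ / T ^ 3) ^ 2 * L ^ 2 * ((M : ℝ) ^ 3 * N2 M c)) := by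
    intro s hs
    have h1 := zero_boundc K M ps c (5 / 4 * L) T L (C₀ / T ^ 3) hT hL1 hpsY
      (fun n hn => (hlog n hn).2.trans (by linarith)) hz' s (hZ s hs).2 (hx s hs).1 (hx s hs).2
      (hZ s hs).1.2.2.2.2
    rw [← hS] at h1
    have h2 := (hcb (ℕ × ℕ) S (co ps c) fr L hL0 hfr s.im (1 / 2 - s.re)).2
    have h3 : ∫ v : ℝ, L * (1 / (1 + |L * (s.im - v)|) ^ 20) * ‖ex S (co ps c) fr v‖ ^ 2 =
        L * ∫ v : ℝ, ‖kk (L * (s.im - v))‖ * ‖g v‖ ^ 2 := by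
      rw [← integral_const_mul]
      congr 1
      funext v
      rw [norm_kk, hg]
      ring
    rw [h3, abs_sub_comm] at h2
    have hI0 : 0 ≤ ∫ v : ℝ, ‖kk (L * (s.im - v))‖ * ‖g v‖ ^ 2 :=
      integral_nonneg fun v => by positivity
    have hE0 : 0 ≤ |s.re - 1 / 2| := abs_nonneg _
    obtain ⟨e, he⟩ : ∃ e : ℝ, e = Real.exp (B * (L * |s.re - 1 / 2|)) := ⟨_, rfl⟩
    have he0 : 0 < e := by rw [he]; positivity
    have he1 : 1 ≤ e := by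
      rw [he]
      apply Real.one_le_exp
      positivity
    rw [← he] at h2
    have hei : Real.exp (-(B * (L * |s.re - 1 / 2|))) = e⁻¹ := by
      rw [Real.exp_neg, he]
    rw [hei]
    have hei1 : e⁻¹ ≤ 1 := inv_le_one_of_one_le₀ he1
    have hR0 : 0 ≤ 51 * (2 * C₀ / T ^ 3) ^ 2 * L ^ 2 * ((M : ℝ) ^ 3 * N2 M c) := by positivity
    have h9 : (2 * (C₀ / T ^ 3)) ^ 2 = (2 * C₀ / T ^ 3) ^ 2 := by ring
    rw [h9] at h1
    have h4 : e⁻¹ * (‖deriv riemannZeta s‖ ^ 2 * ‖dq M c s‖ ^ 2) ≤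
        3 * (B * L ^ 3 * ∫ v : ℝ, ‖kk (L * (s.im - v))‖ * ‖g v‖ ^ 2) +
          51 * (2 * C₀ / T ^ 3) ^ 2 * L ^ 2 * ((M : ℝ) ^ 3 * N2 M c) := by
      calc e⁻¹ * (‖deriv riemannZeta s‖ ^ 2 * ‖dq M c s‖ ^ 2) ≤
            e⁻¹ * (3 * (B * L ^ 2 * e * (L * ∫ v : ℝ, ‖kk (L * (s.im - v))‖ * ‖g v‖ ^ 2)) +
              51 * (2 * C₀ / T ^ 3) ^ 2 * L ^ 2 * ((M : ℝ) ^ 3 * N2 M c)) := by
            apply mul_le_mul_of_nonneg_left _ (by positivity)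
            refine h1.trans ?_
            linarith
        _ = 3 * (B * L ^ 3 * ∫ v : ℝ, ‖kk (L * (s.im - v))‖ * ‖g v‖ ^ 2) +
              e⁻¹ * (51 * (2 * C₀ / T ^ 3) ^ 2 * L ^ 2 * ((M : ℝ) ^ 3 * N2 M c)) := by
            rw [mul_add]
            congr 1
            field_simp
        _ ≤ _ := by
            have := mul_le_mul_of_nonneg_right hei1 hR0
            linarith
    calc (n2 T s.im)⁻¹ * e⁻¹ * (‖deriv riemannZeta s‖ ^ 2 * ‖dq M c s‖ ^ 2) =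
          (n2 T s.im)⁻¹ * (e⁻¹ * (‖deriv riemannZeta s‖ ^ 2 * ‖dq M c s‖ ^ 2)) := by ring
      _ ≤ (n2 T s.im)⁻¹ * (3 * (B * L ^ 3 * ∫ v : ℝ, ‖kk (L * (s.im - v))‖ * ‖g v‖ ^ 2) +
          51 * (2 * C₀ / T ^ 3) ^ 2 * L ^ 2 * ((M : ℝ) ^ 3 * N2 M c)) :=
          mul_le_mul_of_nonneg_left h4 (hn0 s hs)
      _ = _ := by ring
  refine (Finset.sum_le_sum hpt).trans ?_
  rw [Finset.sum_add_distrib, ← Finset.sum_mul, ← Finset.mul_sum, ← Finset.mul_sum]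
  refine add_le_add (mul_le_mul_of_nonneg_left ?_ (by norm_num)) le_rfl
  exact mul_le_mul_of_nonneg_left hsi (by positivity)

/-- **job D2** -/
theorem t_D2 : S_D2 := by
  intro hCB
  rintro ⟨ψ, C₀, -, -, hψ2, hψ3, hC₀, hz⟩
  obtain ⟨B, hB, hcb⟩ := hCB 20 (by norm_num)
  obtain ⟨C₂, hC₂, hw⟩ := weights
  have hC4 := C4_nonneg
  have hB0 : 0 ≤ B := by linarith
  refine ⟨B, 6 * B * 1 * C₂ + 15 * B * 1 * C₂ * (2 * C₀) ^ 2 +
        3 * B * C₂ * 1 * C4 + 204 * (2 * C₀) ^ 2 * C₂, hB0, by positivity, ?_⟩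
  filter_upwards [hz, eventually_ge_atTop (Real.exp 1), eventually_ge_atTop 16] with T hz hTe hT M c hM hc
  have hL : 1 ≤ Real.log T := (Real.le_log_iff_exp_le (by linarith)).mpr hTe
  refine corec hB hcb hC₂ ?_ hψ2 hψ3 hz hT hL M c hM _ ?_
  · exact hw
  · intro s hs
    rw [Finset.mem_filter, H370.mem_Zf H370.good_zeta (by linarith)] at hs
    exact hs

end

end Pool.Agent.V7H93.GH
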